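import Mathlib
import Pool.Agent.Results.MP_9cbc66_an.ConstantTwo
import Pool.Agent.Y840.HQ.Scalar
import Pool.Agent.Y840.HQ.Transfer
set_option autoImplicit false

/-!
# `C* = 2`, for all polynomials of degree at most two with values in a Hilbert space or in `L¹(μ)`
(MP_9cbc66_an, Q1).
-/

namespace Pool.Agent.Results.MP_9cbc66_an.HilbertValuedQuadratics

open MeasureTheory

/-- The discrete cube `{-1,1}^n`. -/
abbrev Cube (n : ℕ) := Fin n → ℤˣ

/-- `f` is a 2-homogeneous polynomial on the cube. -/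
def IsTwoHom {n : ℕ} (f : Cube n → ℝ) : Prop :=
  ∃ a : Fin n → Fin n → ℝ, ∀ x, f x = ∑ i, ∑ j, if i < j then
    a i j * ((x i : ℤ) : ℝ) * ((x j : ℤ) : ℝ) else 0

/-- The `L^p` norm on the cube for the uniform probability measure. -/
noncomputable def lpNorm {n : ℕ} (p : ℝ) (f : Cube n → ℝ) : ℝ :=
  ((2 : ℝ) ^ (-(n : ℝ)) * ∑ x, |f x| ^ p) ^ (1 / p)

/-- The constant `C*` of the problem: the supremum of `‖f‖₂ / ‖f‖₁` over all `n ≥ 1` and all
nonzero 2-homogeneous polynomials `f` on `{-1,1}^n`. -/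
noncomputable def Cstar : ℝ :=
  sSup {t : ℝ | ∃ (n : ℕ) (f : Cube n → ℝ), 1 ≤ n ∧ IsTwoHom f ∧ f ≠ 0 ∧
    t = lpNorm 2 f / lpNorm 1 f}

/-- The polynomial `c + ∑ x_i b_i + ∑_{i<j} x_i x_j a_{ij}` of degree at most `2` on the cube with
the coefficients `c, b_i, a_{ij}` in the real vector space `H`. -/
noncomputable def poly {H : Type*} [AddCommGroup H] [Module ℝ H] {n : ℕ} (c : H) (b : Fin n → H)
    (a : Fin n → Fin n → H) (x : Cube n) : H :=
  c + ∑ i, ((x i : ℤ) : ℝ) • b i +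
    ∑ i, ∑ j, if i < j then (((x i : ℤ) : ℝ) * ((x j : ℤ) : ℝ)) • a i j else 0

/-- The mean value of an `H`-valued function on the cube. -/
noncomputable def mean {H : Type*} [AddCommGroup H] [Module ℝ H] {n : ℕ} (f : Cube n → H) : H :=
  ((2 : ℝ) ^ n)⁻¹ • ∑ x, f x

/-- The `L^p` norm of a function on the cube with values in a normed group. -/
noncomputable def lpNormV {H : Type*} [NormedAddCommGroup H] {n : ℕ} (p : ℝ) (f : Cube n → H) :
    ℝ :=
  ((2 : ℝ) ^ (-(n : ℝ)) * ∑ x, ‖f x‖ ^ p) ^ (1 / p)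

/-! ### Norms -/

lemma two_rpow_neg {n : ℕ} : (2 : ℝ) ^ (-(n : ℝ)) = ((2 : ℝ) ^ n)⁻¹ := by
  rw [Real.rpow_neg (by norm_num), Real.rpow_natCast]

lemma lpNormV_one {H : Type*} [NormedAddCommGroup H] {n : ℕ} (f : Cube n → H) :
    lpNormV 1 f = ((2 : ℝ) ^ n)⁻¹ * ∑ x, ‖f x‖ := by
  unfold lpNormV
  rw [two_rpow_neg]
  simp only [Real.rpow_one, div_one]

lemma lpNormV_two {H : Type*} [NormedAddCommGroup H] {n : ℕ} (f : Cube n → H) :
    lpNormV 2 f = Real.sqrt (((2 : ℝ) ^ n)⁻¹ * ∑ x, ‖f x‖ ^ 2) := by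
  unfold lpNormV
  rw [two_rpow_neg, ← Real.sqrt_eq_rpow]
  simp only [Real.rpow_two]

lemma lpNormV_one_nonneg {H : Type*} [NormedAddCommGroup H] {n : ℕ} (f : Cube n → H) :
    0 ≤ lpNormV 1 f := by
  rw [lpNormV_one]; positivity

/-! ### The family of the coefficients -/

/-- the family of the coefficients of positive degree -/
def cf {H : Type*} [AddCommGroup H] {n : ℕ} (b : Fin n → H) (a : Fin n → Fin n → H) :
    Fin n ⊕ (Fin n × Fin n) → H :=
  Sum.elim b (fun p => if p.1 < p.2 then a p.1 p.2 else 0)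

lemma sum_cf {H : Type*} [AddCommGroup H] {n : ℕ} (b : Fin n → H) (a : Fin n → Fin n → H)
    (F : H → ℝ) (hF : F 0 = 0) :
    ∑ m, F (cf b a m) = ∑ i, F (b i) + ∑ i, ∑ j, if i < j then F (a i j) else 0 := by
  rw [Fintype.sum_sum_type, Fintype.sum_prod_type]
  simp only [cf, Sum.elim_inl, Sum.elim_inr]
  congr 1
  refine Finset.sum_congr rfl fun i _ => Finset.sum_congr rfl fun j _ => ?_
  split_ifs
  · rfl
  · exact hF

/-- applying a linear functional to a polynomial -/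
lemma map_poly {H : Type*} [AddCommGroup H] [Module ℝ H] {n : ℕ} (L : H →ₗ[ℝ] ℝ) (c : H)
    (b : Fin n → H) (a : Fin n → Fin n → H) (x : Cube n) :
    L (poly c b a x) = L c + Y840HQ.pol (fun i => L (b i)) (fun i j => L (a i j)) x := by
  unfold poly Y840HQ.pol
  rw [map_add, map_add, map_sum, map_sum, add_assoc]
  congr 2
  · refine Finset.sum_congr rfl fun i _ => ?_
    rw [map_smul, smul_eq_mul, mul_comm]
    rfl
  · refine Finset.sum_congr rfl fun i _ => ?_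
    rw [map_sum]
    refine Finset.sum_congr rfl fun j _ => ?_
    split_ifs
    · rw [map_smul, smul_eq_mul, mul_comm]
      rfl
    · rw [map_zero]

/-! ### The mean -/

lemma sum_sg {n : ℕ} (i : Fin n) : ∑ x : Cube n, ((x i : ℤ) : ℝ) = 0 :=
  H651CB.res_sum_zero i (fun x => H651CB.sg x i) (fun x => H651CB.res_sg_flp_self i x)

lemma sum_sg_sg {n : ℕ} {i j : Fin n} (hij : i ≠ j) :
    ∑ x : Cube n, ((x i : ℤ) : ℝ) * ((x j : ℤ) : ℝ) = 0 :=
  H651CB.res_two hij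

lemma sum_poly {H : Type*} [AddCommGroup H] [Module ℝ H] {n : ℕ} (c : H) (b : Fin n → H)
    (a : Fin n → Fin n → H) : ∑ x, poly c b a x = ((2 : ℝ) ^ n) • c := by
  unfold poly
  rw [Finset.sum_add_distrib, Finset.sum_add_distrib]
  have h1 : ∑ x : Cube n, ∑ i, ((x i : ℤ) : ℝ) • b i = 0 := by
    rw [Finset.sum_comm]
    refine Finset.sum_eq_zero fun i _ => ?_
    rw [← Finset.sum_smul, sum_sg, zero_smul]
  have h2 : ∑ x : Cube n, ∑ i, ∑ j,
      (if i < j then (((x i : ℤ) : ℝ) * ((x j : ℤ) : ℝ)) • a i j else 0) = 0 := by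
    rw [Finset.sum_comm]
    refine Finset.sum_eq_zero fun i _ => ?_
    rw [Finset.sum_comm]
    refine Finset.sum_eq_zero fun j _ => ?_
    split_ifs with hij
    · rw [← Finset.sum_smul, sum_sg_sg hij.ne, zero_smul]
    · simp
  rw [h1, h2, add_zero, add_zero, Finset.sum_const, Finset.card_univ]
  have h3 : Fintype.card (Cube n) = 2 ^ n := by simp
  rw [h3, ← Nat.cast_smul_eq_nsmul ℝ]
  push_cast
  rfl

lemma mean_poly {H : Type*} [AddCommGroup H] [Module ℝ H] {n : ℕ} (c : H) (b : Fin n → H)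
    (a : Fin n → Fin n → H) : mean (poly c b a) = c := by
  unfold mean
  rw [sum_poly, smul_smul, inv_mul_cancel₀ (by positivity), one_smul]

/-! ### Hilbert space valued polynomials -/

section hilbert

variable {H : Type*} [NormedAddCommGroup H] [InnerProductSpace ℝ H] {n : ℕ}

/-- the linear functional given by a vector -/
noncomputable def fn (y : H) : H →ₗ[ℝ] ℝ := (innerSL ℝ y : H →ₗ[ℝ] ℝ)

lemma fn_apply (y v : H) : fn y v = inner ℝ y v := rfl

lemma sum_inner_cf (b : Fin n → H) (a : Fin n → Fin n → H) (y : H) :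
    ∑ m, (inner ℝ y (cf b a m)) ^ 2
      = Y840HQ.vari (fun i => inner ℝ y (b i)) (fun i j => inner ℝ y (a i j)) := by
  rw [sum_cf b a (fun v => (inner ℝ y v) ^ 2) (by simp)]
  rfl

lemma inner_poly (c : H) (b : Fin n → H) (a : Fin n → Fin n → H) (y : H) (x : Cube n) :
    inner ℝ y (poly c b a x)
      = inner ℝ y c + Y840HQ.pol (fun i => inner ℝ y (b i)) (fun i j => inner ℝ y (a i j)) x :=
  map_poly (fn y) c b a x

lemma parseval (c : H) (b : Fin n → H) (a : Fin n → Fin n → H) :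
    lpNormV 2 (fun x => poly c b a x - c)
      = Real.sqrt (∑ i, ‖b i‖ ^ 2 + ∑ i, ∑ j, if i < j then ‖a i j‖ ^ 2 else 0) := by
  rw [lpNormV_two, ← sum_cf b a (fun v => ‖v‖ ^ 2) (by simp)]
  congr 1
  symm
  refine Y840HQ.transfer_sq _ _ _ fun y => ?_
  rw [sum_inner_cf, ← Y840HQ.scalar_parseval]
  congr 1
  refine Finset.sum_congr rfl fun x _ => ?_
  rw [inner_sub_right, inner_poly]
  ring

lemma main_ineq (c : H) (b : Fin n → H) (a : Fin n → Fin n → H) :
    lpNormV 2 (fun x => poly c b a x - c) ≤ 2 * lpNormV 1 (poly c b a) := by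
  rw [parseval, ← sum_cf b a (fun v => ‖v‖ ^ 2) (by simp), lpNormV_one, ← mul_assoc]
  refine Y840HQ.transfer _ _ _ fun y => ?_
  rw [sum_inner_cf, Real.sqrt_le_left (by positivity)]
  have h := Y840HQ.scalar_ineq (inner ℝ y c) (fun i => inner ℝ y (b i))
    (fun i j => inner ℝ y (a i j))
  simp_rw [inner_poly]
  calc _ ≤ _ := h
    _ = _ := by ring

lemma norm_mean_le (c : H) (b : Fin n → H) (a : Fin n → Fin n → H) :
    ‖c‖ ≤ lpNormV 1 (poly c b a) := by
  have h1 : mean (poly c b a) = c := mean_poly c b a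
  have hN : (0 : ℝ) < 2 ^ n := by positivity
  calc ‖c‖ = ‖mean (poly c b a)‖ := by rw [h1]
    _ = ((2 : ℝ) ^ n)⁻¹ * ‖∑ x, poly c b a x‖ := by
        unfold mean
        rw [norm_smul, norm_inv, norm_pow]
        norm_num
    _ ≤ ((2 : ℝ) ^ n)⁻¹ * ∑ x, ‖poly c b a x‖ :=
        mul_le_mul_of_nonneg_left (norm_sum_le _ _) (by positivity)
    _ = _ := (lpNormV_one _).symm

lemma full_ineq (c : H) (b : Fin n → H) (a : Fin n → Fin n → H) :
    lpNormV 2 (poly c b a) ≤ Real.sqrt 5 * lpNormV 1 (poly c b a) := by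
  have hN : (0 : ℝ) < 2 ^ n := by positivity
  have h0 := lpNormV_one_nonneg (poly c b a)
  have h1 := main_ineq c b a
  have h2 := norm_mean_le c b a
  have h3 : ((2 : ℝ) ^ n)⁻¹ * ∑ x, ‖poly c b a x‖ ^ 2
      = ‖c‖ ^ 2 + ((2 : ℝ) ^ n)⁻¹ * ∑ x, ‖poly c b a x - c‖ ^ 2 := by
    have e1 : ∀ x, ‖poly c b a x‖ ^ 2
        = ‖poly c b a x - c‖ ^ 2 + (2 * inner ℝ (poly c b a x) c - ‖c‖ ^ 2) := by
      intro x
      rw [norm_sub_sq_real]
      ring
    have e2 : ∑ x, inner ℝ (poly c b a x) c = 2 ^ n * ‖c‖ ^ 2 := by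
      rw [← sum_inner, sum_poly, inner_smul_left, real_inner_self_eq_norm_sq]
      simp
    have e3 : ∑ _x : Cube n, ‖c‖ ^ 2 = 2 ^ n * ‖c‖ ^ 2 := by
      rw [Finset.sum_const, Finset.card_univ, nsmul_eq_mul]
      simp
    simp_rw [e1]
    rw [Finset.sum_add_distrib, Finset.sum_sub_distrib, ← Finset.mul_sum, e2, e3]
    field_simp
    ring
  have h4 : 0 ≤ ((2 : ℝ) ^ n)⁻¹ * ∑ x, ‖poly c b a x - c‖ ^ 2 := by positivity
  rw [lpNormV_two] at h1
  rw [lpNormV_two, h3, Real.sqrt_le_left (by positivity), mul_pow,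
    Real.sq_sqrt (by norm_num : (0 : ℝ) ≤ 5)]
  have h5 : ((2 : ℝ) ^ n)⁻¹ * ∑ x, ‖poly c b a x - c‖ ^ 2
      ≤ (2 * lpNormV 1 (poly c b a)) ^ 2 := by
    rwa [Real.sqrt_le_left (by positivity)] at h1
  have h6 : ‖c‖ ^ 2 ≤ lpNormV 1 (poly c b a) ^ 2 :=
    pow_le_pow_left₀ (norm_nonneg _) h2 2
  nlinarith

lemma poly_zero_sub (a : Fin n → Fin n → H) :
    (fun x => poly 0 0 a x - 0) = poly 0 0 a := by
  funext x; simp

lemma sharp [Nontrivial H] :
    IsGreatest {t : ℝ | ∃ (n : ℕ) (a : Fin n → Fin n → H), 1 ≤ n ∧ poly 0 0 a ≠ 0 ∧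
      t = lpNormV 2 (poly 0 0 a) / lpNormV 1 (poly 0 0 a)} 2 := by
  constructor
  · obtain ⟨e0, he0⟩ := exists_ne (0 : H)
    obtain ⟨e, he⟩ : ∃ e : H, ‖e‖ = 1 := ⟨(‖e0‖)⁻¹ • e0, norm_smul_inv_norm he0⟩
    have hp : ∀ x : Cube 4, poly 0 0 (fun i j : Fin 4 => if i < 2 ∧ 2 ≤ j then e else 0) x
        = (H651CB.res_g x : ℝ) • e := by
      intro x
      simp only [poly, Fin.sum_univ_four, H651CB.res_g]
      simp
      module
    refine ⟨4, fun i j => if i < 2 ∧ 2 ≤ j then e else 0, by norm_num, ?_, ?_⟩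
    · intro h
      have h1 := congrFun h (fun _ => 1)
      rw [hp] at h1
      have he' : e ≠ 0 := fun h0 => by simp [h0] at he
      simp [H651CB.res_g, he'] at h1
    · rw [lpNormV_one, lpNormV_two]
      simp_rw [hp, norm_smul, he, mul_one, Real.norm_eq_abs, sq_abs]
      have h1 : ∑ x : Cube 4, |(H651CB.res_g x : ℝ)| = 16 := by
        have := H651CB.res_g1
        exact_mod_cast this
      have h2 : ∑ x : Cube 4, (H651CB.res_g x : ℝ) ^ 2 = 64 := by
        have := H651CB.res_g2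
        exact_mod_cast this
      rw [h1, h2]
      have h3 : ((2:ℝ) ^ 4)⁻¹ * 64 = 2 ^ 2 := by norm_num
      rw [h3, Real.sqrt_sq (by norm_num)]
      norm_num
  · rintro t ⟨n, a, -, -, rfl⟩
    have h1 := main_ineq (0 : H) 0 a
    rw [poly_zero_sub] at h1
    exact div_le_of_le_mul₀ (lpNormV_one_nonneg _) (by norm_num) h1

end hilbert

/-! ### Functions with values in `L¹(μ)` -/

lemma integrable_cf {Ω : Type*} [MeasurableSpace Ω] {μ : Measure Ω} {n : ℕ} {b : Fin n → Ω → ℝ}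
    {a : Fin n → Fin n → Ω → ℝ} (hb : ∀ i, Integrable (b i) μ) (ha : ∀ i j, Integrable (a i j) μ)
    (m : Fin n ⊕ (Fin n × Fin n)) : Integrable (cf b a m) μ := by
  rcases m with i | ⟨i, j⟩
  · exact hb i
  · simp only [cf, Sum.elim_inr]
    split_ifs
    · exact ha i j
    · exact integrable_zero _ _ _

lemma integrable_poly {Ω : Type*} [MeasurableSpace Ω] {μ : Measure Ω} {n : ℕ} {c : Ω → ℝ}
    {b : Fin n → Ω → ℝ} {a : Fin n → Fin n → Ω → ℝ} (hc : Integrable c μ)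
    (hb : ∀ i, Integrable (b i) μ) (ha : ∀ i j, Integrable (a i j) μ) (x : Cube n) :
    Integrable (poly c b a x) μ := by
  unfold poly
  refine (hc.add (integrable_finsetSum' _ fun i _ => (hb i).smul _)).add
    (integrable_finsetSum' _ fun i _ => integrable_finsetSum' _ fun j _ => ?_)
  split_ifs
  · exact (ha i j).smul _
  · exact integrable_zero _ _ _

lemma l1_ineq {Ω : Type*} [MeasurableSpace Ω] (μ : Measure Ω) {n : ℕ} (c : Ω → ℝ)
    (b : Fin n → Ω → ℝ) (a : Fin n → Fin n → Ω → ℝ) (hc : Integrable c μ)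
    (hb : ∀ i, Integrable (b i) μ) (ha : ∀ i j, Integrable (a i j) μ) :
    Real.sqrt (∑ i, (∫ ω, |b i ω| ∂μ) ^ 2 +
        ∑ i, ∑ j, if i < j then (∫ ω, |a i j ω| ∂μ) ^ 2 else 0)
      ≤ 2 * (((2 : ℝ) ^ n)⁻¹ * ∑ x : Cube n, ∫ ω, |poly c b a x ω| ∂μ) := by
  rw [← sum_cf b a (fun v => (∫ ω, |v ω| ∂μ) ^ 2) (by simp), ← mul_assoc]
  refine Y840HQ.l1_transfer μ (cf b a) (fun x => poly c b a x) _ (integrable_cf hb ha)
    (integrable_poly hc hb ha) fun ω => ?_
  have e1 : ∑ m, cf b a m ω ^ 2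
      = Y840HQ.vari (fun i => b i ω) (fun i j => a i j ω) := by
    rw [sum_cf b a (fun v => v ω ^ 2) (by simp)]
    rfl
  have e2 : ∀ x, poly c b a x ω
      = c ω + Y840HQ.pol (fun i => b i ω) (fun i j => a i j ω) x :=
    fun x => map_poly (LinearMap.proj ω) c b a x
  rw [e1, Real.sqrt_le_left (by positivity)]
  have h := Y840HQ.scalar_ineq (c ω) (fun i => b i ω) (fun i j => a i j ω)
  simp_rw [e2]
  calc _ ≤ _ := h
    _ = _ := by ring

/-- polynomials with coefficients in `L¹(μ)`, evaluated almost everywhere -/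
lemma coeFn_poly {Ω : Type*} [MeasurableSpace Ω] {μ : Measure Ω} {n : ℕ} (c : Lp ℝ 1 μ)
    (b : Fin n → Lp ℝ 1 μ) (a : Fin n → Fin n → Lp ℝ 1 μ) (x : Cube n) :
    ∀ᵐ ω ∂μ, (poly c b a x : Lp ℝ 1 μ) ω
      = poly (fun ω => c ω) (fun i ω => b i ω) (fun i j ω => a i j ω) x ω := by
  have hb : ∀ᵐ ω ∂μ, ∀ i, (((x i : ℤ) : ℝ) • b i : Lp ℝ 1 μ) ω = ((x i : ℤ) : ℝ) * b i ω := by
    refine Filter.eventually_all.2 fun i => ?_
    filter_upwards [Lp.coeFn_smul (((x i : ℤ) : ℝ)) (b i)] with ω hω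
    rw [hω]; rfl
  have ha : ∀ᵐ ω ∂μ, ∀ i j,
      (if i < j then (((x i : ℤ) : ℝ) * ((x j : ℤ) : ℝ)) • a i j else 0 : Lp ℝ 1 μ) ω
        = if i < j then (((x i : ℤ) : ℝ) * ((x j : ℤ) : ℝ)) * a i j ω else 0 := by
    refine Filter.eventually_all.2 fun i => Filter.eventually_all.2 fun j => ?_
    split_ifs
    · filter_upwards [Lp.coeFn_smul (((x i : ℤ) : ℝ) * ((x j : ℤ) : ℝ)) (a i j)] with ω hω
      rw [hω]; rfl
    · filter_upwards [Lp.coeFn_zero ℝ 1 μ] with ω hω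
      rw [hω]; rfl
  have h1 := Lp.coeFn_fun_finsetSum (p := 1) (μ := μ) Finset.univ
    (fun i => ((x i : ℤ) : ℝ) • b i)
  have h2 := Lp.coeFn_fun_finsetSum (p := 1) (μ := μ) Finset.univ
    (fun i => ∑ j, if i < j then (((x i : ℤ) : ℝ) * ((x j : ℤ) : ℝ)) • a i j else 0)
  have h3 : ∀ᵐ ω ∂μ, ∀ i,
      (∑ j, if i < j then (((x i : ℤ) : ℝ) * ((x j : ℤ) : ℝ)) • a i j else 0 : Lp ℝ 1 μ) ω
        = ∑ j, (if i < j then (((x i : ℤ) : ℝ) * ((x j : ℤ) : ℝ)) • a i j else 0 : Lp ℝ 1 μ) ω :=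
    Filter.eventually_all.2 fun i => Lp.coeFn_fun_finsetSum (p := 1) (μ := μ) Finset.univ
      (fun j => if i < j then (((x i : ℤ) : ℝ) * ((x j : ℤ) : ℝ)) • a i j else 0)
  have h4 := Lp.coeFn_add c (∑ i, ((x i : ℤ) : ℝ) • b i)
  have h5 := Lp.coeFn_add (c + ∑ i, ((x i : ℤ) : ℝ) • b i)
    (∑ i, ∑ j, if i < j then (((x i : ℤ) : ℝ) * ((x j : ℤ) : ℝ)) • a i j else 0)
  filter_upwards [hb, ha, h1, h2, h3, h4, h5] with ω hb ha h1 h2 h3 h4 h5
  unfold poly
  rw [h5, Pi.add_apply, h4, Pi.add_apply, h1, h2]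
  simp only [Pi.add_apply, Finset.sum_apply]
  congr 1
  · congr 1
    refine Finset.sum_congr rfl fun i _ => ?_
    rw [hb i]; rfl
  · refine Finset.sum_congr rfl fun i _ => ?_
    rw [h3 i]
    refine Finset.sum_congr rfl fun j _ => ?_
    rw [ha i j]
    split_ifs <;> rfl

lemma embed_ineq {X Ω : Type*} [NormedAddCommGroup X] [NormedSpace ℝ X] [MeasurableSpace Ω]
    (μ : Measure Ω) (J : X →ₗᵢ[ℝ] Lp ℝ 1 μ) {n : ℕ} (c : X) (b : Fin n → X)
    (a : Fin n → Fin n → X) :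
    Real.sqrt (∑ i, ‖b i‖ ^ 2 + ∑ i, ∑ j, if i < j then ‖a i j‖ ^ 2 else 0)
      ≤ 2 * lpNormV 1 (poly c b a) := by
  have hL : ∀ v : Lp ℝ 1 μ, ‖v‖ = ∫ ω, |v ω| ∂μ := fun v => by
    rw [L1.norm_eq_integral_norm]
    rfl
  have hn : ∀ v : X, ‖v‖ = ∫ ω, |(J v) ω| ∂μ := fun v => by
    rw [← J.norm_map, hL]
  have h := l1_ineq μ (fun ω => (J c) ω) (fun i ω => (J (b i)) ω) (fun i j ω => (J (a i j)) ω)
    (L1.integrable_coeFn _) (fun i => L1.integrable_coeFn _) (fun i j => L1.integrable_coeFn _)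
  have hp : ∀ x : Cube n, ‖poly c b a x‖ = ∫ ω, |poly (fun ω => (J c) ω)
      (fun i ω => (J (b i)) ω) (fun i j ω => (J (a i j)) ω) x ω| ∂μ := by
    intro x
    have e : J (poly c b a x) = poly (J c) (fun i => J (b i)) (fun i j => J (a i j)) x := by
      unfold poly
      rw [map_add, map_add, map_sum, map_sum]
      congr 1
      · congr 1
        refine Finset.sum_congr rfl fun i _ => ?_
        rw [map_smul]
      · refine Finset.sum_congr rfl fun i _ => ?_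
        rw [map_sum]
        refine Finset.sum_congr rfl fun j _ => ?_
        split_ifs
        · rw [map_smul]
        · rw [map_zero]
    rw [← J.norm_map, e, hL]
    refine integral_congr_ae ?_
    filter_upwards [coeFn_poly (J c) (fun i => J (b i)) (fun i j => J (a i j)) x] with ω hω
    rw [hω]
  rw [lpNormV_one]
  simp_rw [hp, hn]
  exact h

universe u v

/-- **`C* = 2`, and the constant `2` for all polynomials of degree at most two with values in a
Hilbert space or in a subspace of `L¹(μ)`.** -/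
theorem result :
    -- the answer to Q1: `C* = 2`, attained
    (IsGreatest {t : ℝ | ∃ (n : ℕ) (f : Cube n → ℝ), 1 ≤ n ∧ IsTwoHom f ∧ f ≠ 0 ∧
        t = lpNorm 2 f / lpNorm 1 f} 2 ∧
      Cstar = 2) ∧
    -- polynomials of degree at most `2` with values in a real inner product space `H`
    (∀ (H : Type u) [NormedAddCommGroup H] [InnerProductSpace ℝ H],
      (∀ (n : ℕ) (c : H) (b : Fin n → H) (a : Fin n → Fin n → H),
        mean (poly c b a) = c ∧
        lpNormV 2 (fun x => poly c b a x - c)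
          = Real.sqrt (∑ i, ‖b i‖ ^ 2 + ∑ i, ∑ j, if i < j then ‖a i j‖ ^ 2 else 0) ∧
        lpNormV 2 (fun x => poly c b a x - c) ≤ 2 * lpNormV 1 (poly c b a) ∧
        lpNormV 2 (poly c b a) ≤ Real.sqrt 5 * lpNormV 1 (poly c b a)) ∧
      (Nontrivial H → IsGreatest {t : ℝ | ∃ (n : ℕ) (a : Fin n → Fin n → H), 1 ≤ n ∧
        poly 0 0 a ≠ 0 ∧ t = lpNormV 2 (poly 0 0 a) / lpNormV 1 (poly 0 0 a)} 2)) ∧
    -- polynomials of degree at most `2` with values in a normed space `X` which embeds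
    -- isometrically in some `L¹(μ)`
    (∀ (X : Type u) [NormedAddCommGroup X] [NormedSpace ℝ X] (Ω : Type v) [MeasurableSpace Ω]
      (μ : Measure Ω), (X →ₗᵢ[ℝ] Lp ℝ 1 μ) →
      ∀ (n : ℕ) (c : X) (b : Fin n → X) (a : Fin n → Fin n → X),
        Real.sqrt (∑ i, ‖b i‖ ^ 2 + ∑ i, ∑ j, if i < j then ‖a i j‖ ^ 2 else 0)
          ≤ 2 * lpNormV 1 (poly c b a)) :=
  ⟨ConstantTwo.result, fun _ _ _ => ⟨fun _ c b a => ⟨mean_poly c b a, parseval c b a,
    main_ineq c b a, full_ineq c b a⟩, fun _ => sharp⟩,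
    fun _ _ _ _ _ μ J _ c b a => embed_ineq μ J c b a⟩

end Pool.Agent.Results.MP_9cbc66_an.HilbertValuedQuadratics
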